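import Pool.Agent.Run7.h594.UM.P1
import Pool.Agent.Run7.h759.UM.Iface2

/-!
# Project UM, piece Q3: one layer is enough
-/

set_option autoImplicit false

namespace Pool.Agent.Run7.h321.UM

open Subgroup Pool.Agent.Q60.MU Pool.Agent.W5h77.MB Pool.Agent.Run7.h759.UM
open Pool.Agent.Run7.h594.UM
open scoped commutatorElement

variable {𝔾 : Type} [Group 𝔾]

/-- the elementary abelian quotient -/
theorem exists_quo {p : ℕ} {Ω : Type} {I : Ω → Subgroup 𝔾} {K W : Subgroup 𝔾} (hWK : W ≤ K)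
    (hW0 : W.relIndex K ≠ 0) (hg : gens p I K ⊆ W) :
    ∃ (V : Type) (_ : CommGroup V) (_ : Finite V) (mk : K →* V), Function.Surjective mk ∧
      (∀ x : K, mk x = 1 ↔ (x : 𝔾) ∈ W) ∧ ∀ v : V, v ^ p = 1 := by
  have hN : (W.subgroupOf K).Normal := normal_of_gens hWK hg
  let mk : K →* K ⧸ W.subgroupOf K := QuotientGroup.mk' (W.subgroupOf K)
  have hmk1 : ∀ x : K, mk x = 1 ↔ (x : 𝔾) ∈ W := by
    intro x
    have h1 : mk x = 1 ↔ x ∈ W.subgroupOf K := QuotientGroup.eq_one_iff x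
    rw [h1, mem_subgroupOf]
  have hmks : Function.Surjective mk := QuotientGroup.mk'_surjective _
  have hcomm : ∀ a b : K ⧸ W.subgroupOf K, a * b = b * a := by
    intro a b
    obtain ⟨x, rfl⟩ := hmks a
    obtain ⟨y, rfl⟩ := hmks b
    have h1 : mk (x * y * (y * x)⁻¹) = 1 := by
      rw [hmk1]
      have h2 : ((x * y * (y * x)⁻¹ : K) : 𝔾) = ⁅(x : 𝔾), (y : 𝔾)⁆ := by
        rw [commutatorElement_def]
        push_cast
        group
      rw [h2]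
      exact comm_mem_of_gens hg x.2 y.2
    rw [map_mul, map_inv, mul_inv_eq_one] at h1
    rw [← map_mul, ← map_mul]
    exact h1
  have hexp : ∀ a : K ⧸ W.subgroupOf K, a ^ p = 1 := by
    intro a
    obtain ⟨x, rfl⟩ := hmks a
    rw [← map_pow, hmk1]
    push_cast
    exact pow_mem_of_gens hg x.2
  have hfi : (W.subgroupOf K).FiniteIndex := ⟨hW0⟩
  have hfin : Finite (K ⧸ W.subgroupOf K) := inferInstance
  exact ⟨K ⧸ W.subgroupOf K,
    { (inferInstance : Group (K ⧸ W.subgroupOf K)) with mul_comm := hcomm }, hfin, mk, hmks, hmk1,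
    hexp⟩

/-- the automorphism of the quotient given by a conjugation -/
theorem exists_aut {K W : Subgroup 𝔾} {V : Type} [CommGroup V] (mk : K →* V)
    (hs : Function.Surjective mk) (hk : ∀ x : K, mk x = 1 ↔ (x : 𝔾) ∈ W) (c : 𝔾)
    (hcK : ∀ x ∈ K, c * x * c⁻¹ ∈ K) (hcW : ∀ x ∈ W, c * x * c⁻¹ ∈ W) (n : ℕ) (hn : 0 < n)
    (hcn : c ^ n ∈ K) :
    ∃ φ : MulAut V, (∀ x : K, φ (mk x) = mk ⟨c * x * c⁻¹, hcK x x.2⟩) ∧ φ ^ n = 1 := by
  let ch : K →* K :=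
    { toFun := fun x => ⟨c * x * c⁻¹, hcK x x.2⟩
      map_one' := by
        apply Subtype.ext
        push_cast
        group
      map_mul' := by
        intro x y
        apply Subtype.ext
        push_cast
        group }
  have hch : ∀ x : K, ((ch x : K) : 𝔾) = c * x * c⁻¹ := fun x => rfl
  have hker : mk.ker ≤ (mk.comp ch).ker := by
    intro x hx
    rw [MonoidHom.mem_ker, hk] at hx
    rw [MonoidHom.mem_ker, MonoidHom.comp_apply, hk, hch]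
    exact hcW _ hx
  let f : V →* V := mk.liftOfSurjective hs ⟨mk.comp ch, hker⟩
  have hf : ∀ x : K, f (mk x) = mk (ch x) := fun x =>
    MonoidHom.liftOfRightInverse_comp_apply mk (Function.surjInv hs)
      (Function.rightInverse_surjInv hs) ⟨mk.comp ch, hker⟩ x
  have hit : ∀ (j : ℕ) (x : K), f^[j] (mk x) = mk (ch^[j] x) := by
    intro j
    induction j with
    | zero => intro x; rfl
    | succ j ih =>
      intro x
      rw [Function.iterate_succ_apply', Function.iterate_succ_apply', ih, hf]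
  have hbi : ∀ (j : ℕ) (x : K), ((ch^[j] x : K) : 𝔾) = c ^ j * x * (c ^ j)⁻¹ := by
    intro j
    induction j with
    | zero => intro x; simp
    | succ j ih =>
      intro x
      rw [Function.iterate_succ_apply', hch, ih, pow_succ']
      group
  have hid : ∀ v, f^[n] v = v := by
    intro v
    obtain ⟨x, rfl⟩ := hs v
    rw [hit]
    have h1 : ch^[n] x = ⟨c ^ n, hcn⟩ * x * (⟨c ^ n, hcn⟩ : K)⁻¹ := by
      apply Subtype.ext
      rw [hbi]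
      rfl
    rw [h1, map_mul, map_mul, map_inv, mul_comm (mk ⟨c ^ n, hcn⟩) (mk x), mul_inv_cancel_right]
  obtain ⟨m, rfl⟩ : ∃ m, n = m + 1 := ⟨n - 1, by omega⟩
  have hbij : Function.Bijective f := by
    constructor
    · intro a b hab
      rw [← hid a, ← hid b, Function.iterate_succ_apply, Function.iterate_succ_apply, hab]
    · intro a
      exact ⟨f^[m] a, (Function.iterate_succ_apply' f m a).symm.trans (hid a)⟩
  let φ : MulAut V := MulEquiv.ofBijective f hbij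
  have hφ : ∀ v, φ v = f v := fun v => rfl
  refine ⟨φ, fun x => ?_, ?_⟩
  · rw [hφ, hf]
    rfl
  · have h1 : ∀ (j : ℕ) (v : V), (φ ^ j) v = f^[j] v := by
      intro j
      induction j with
      | zero => intro v; rfl
      | succ j ih =>
        intro v
        rw [pow_succ', MulAut.mul_apply, ih, hφ, Function.iterate_succ_apply']
    ext v
    rw [h1, hid, MulAut.one_apply]

/-- no fixed points on the quotient by the fixed points -/
theorem nofix {p : ℕ} {Ω : Type} {I : Ω → Subgroup 𝔾} {K W : Subgroup 𝔾} (hp : p.Prime)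
    (hWK : W ≤ K) (hW0 : W.relIndex K ≠ 0) (hg : gens p I K ⊆ W) (h : 𝔾) (n : ℕ) (hn0 : 0 < n)
    (hpn : ¬ p ∣ n) (hhK : ∀ x ∈ K, h * x * h⁻¹ ∈ K) (hWh : ∀ x ∈ W, h * x * h⁻¹ ∈ W)
    (hn : h ^ n ∈ K) (x : 𝔾) (hx : x ∈ K) (h2 : ⁅h, ⁅h, x⁆⁆ ∈ W) : ⁅h, x⁆ ∈ W := by
  obtain ⟨V, _, _, mk, hs, hk, hexp⟩ := exists_quo hWK hW0 hg
  obtain ⟨φ, hφ, hφn⟩ := exists_aut mk hs hk h hhK hWh n hn0 hn
  have hcK : ∀ x ∈ K, ⁅h, x⁆ ∈ K := by
    intro x hx
    rw [commutatorElement_def]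
    exact K.mul_mem (hhK x hx) (K.inv_mem hx)
  have hφc : ∀ x : K, φ (mk x) * (mk x)⁻¹ = mk ⟨⁅h, (x : 𝔾)⁆, hcK x x.2⟩ := by
    intro x
    rw [hφ, ← map_inv, ← map_mul]
    congr 1
  have hit : ∀ (j : ℕ) (v : V), (φ : V →* V)^[j] v = (φ ^ j) v := by
    intro j
    induction j with
    | zero => intro v; rfl
    | succ j ih =>
      intro v
      rw [Function.iterate_succ_apply', ih, pow_succ', MulAut.mul_apply]
      rfl
  have h3 := unip (fun a b : V => mul_comm a b) p n hp hpn hexp (φ : V →* V)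
    (fun a => by rw [hit, hφn, MulAut.one_apply]) (mk ⟨x, hx⟩) (by
      show φ (φ (mk ⟨x, hx⟩) * (mk ⟨x, hx⟩)⁻¹) = φ (mk ⟨x, hx⟩) * (mk ⟨x, hx⟩)⁻¹
      rw [hφc, ← mul_inv_eq_one, hφc, hk]
      exact h2)
  have h4 : φ (mk ⟨x, hx⟩) = mk ⟨x, hx⟩ := h3
  rw [← mul_inv_eq_one, hφc, hk] at h4
  exact h4

/-- a stable subgroup as in the definition of `RelLe` -/
theorem exists_stable [TopologicalSpace 𝔾] [ContinuousMul 𝔾] {p : ℕ} [hp : Fact p.Prime]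
    {Ω : Type} [MulAction 𝔾 Ω] {I : Ω → Subgroup 𝔾} {K KR K' : Subgroup 𝔾} {γ h : 𝔾}
    {ℓ q₀ q : ℕ} (hI : ∀ (g : 𝔾) (w : Ω), ∀ x ∈ I w, g * x * g⁻¹ ∈ I (g • w))
    (L : Lay p I K KR K' γ h q₀ q) (hℓ : ℓ.Prime) (hℓp : ℓ ≠ p) (hh : h ^ ℓ ∈ K')
    {W : Subgroup 𝔾} (hWK : W ≤ K') (hWo : IsOpen (W : Set 𝔾)) (hW0 : W.relIndex K' ≠ 0)
    (hg : gens p I K' ⊆ W) (hfix : ∀ x ∈ K', ⁅h, x⁆ ∈ W → x ∈ W) :
    ∃ W₃ : Subgroup 𝔾, W₃ ≤ W ∧ IsOpen (W₃ : Set 𝔾) ∧ W₃.relIndex K' ≠ 0 ∧ gens p I K' ⊆ W₃ ∧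
      (∀ x ∈ W₃, h * x * h⁻¹ ∈ W₃) ∧ (∀ g ∈ K, ∀ x ∈ W₃, g * x * g⁻¹ ∈ W₃) ∧
      (∀ x ∈ K', ⁅h, x⁆ ∈ W₃ → x ∈ W₃) := by
  have hK'K : K' ≤ K := L.le1.trans L.le2
  -- `K'` has finite index in `K`
  have hfin : K'.relIndex K ≠ 0 := by
    obtain ⟨s, hs⟩ := L.powK
    have hps : 0 < p ^ s := Nat.pos_of_ne_zero (pow_ne_zero _ hp.out.ne_zero)
    have hf : Finite (K ⧸ K'.subgroupOf K) := by
      refine Finite.of_surjective (fun i : Fin (p ^ s) =>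
        (QuotientGroup.mk (⟨γ, L.memγ⟩ ^ (i : ℕ)) : K ⧸ K'.subgroupOf K)) ?_
      intro v
      obtain ⟨⟨x, hx⟩, rfl⟩ := QuotientGroup.mk_surjective v
      obtain ⟨i, κ, hκ, rfl⟩ := L.gen x hx
      refine ⟨⟨i % p ^ s, Nat.mod_lt _ hps⟩, ?_⟩
      rw [QuotientGroup.eq, mem_subgroupOf]
      push_cast
      have h1 : γ ^ i = γ ^ (i % p ^ s) * (γ ^ p ^ s) ^ (i / p ^ s) := by
        rw [← pow_mul, ← pow_add, Nat.mod_add_div]
      rw [h1]
      have h2 : (γ ^ (i % p ^ s))⁻¹ * (γ ^ (i % p ^ s) * (γ ^ p ^ s) ^ (i / p ^ s) * κ) =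
          (γ ^ p ^ s) ^ (i / p ^ s) * κ := by group
      rw [h2]
      exact K'.mul_mem (K'.pow_mem hs _) hκ
    intro h0
    exact (Subgroup.index_ne_zero_of_finite (H := K'.subgroupOf K)) h0
  -- powers of `h`
  have hpowK' : ∀ (i : ℕ), ∀ x ∈ K', h ^ i * x * (h ^ i)⁻¹ ∈ K' := by
    intro i
    induction i with
    | zero => intro x hx; simpa using hx
    | succ i ih =>
      intro x hx
      have h1 : h ^ (i + 1) * x * (h ^ (i + 1))⁻¹ = h * (h ^ i * x * (h ^ i)⁻¹) * h⁻¹ := by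
        rw [pow_succ']
        group
      rw [h1]
      exact L.hK' _ (ih x hx)
  have hpowK : ∀ (i : ℕ), ∀ x ∈ K, h ^ i * x * (h ^ i)⁻¹ ∈ K := by
    intro i
    induction i with
    | zero => intro x hx; simpa using hx
    | succ i ih =>
      intro x hx
      have h1 : h ^ (i + 1) * x * (h ^ (i + 1))⁻¹ = h * (h ^ i * x * (h ^ i)⁻¹) * h⁻¹ := by
        rw [pow_succ']
        group
      rw [h1]
      exact L.hK _ (ih x hx)
  have hinv : ∀ x ∈ K', h⁻¹ * x * h ∈ K' := by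
    intro x hx
    obtain ⟨m, rfl⟩ : ∃ m, ℓ = m + 1 := ⟨ℓ - 1, by have := hℓ.pos; omega⟩
    have h1 : h⁻¹ * x * h = h ^ m * ((h ^ (m + 1))⁻¹ * x * h ^ (m + 1)) * (h ^ m)⁻¹ := by
      rw [pow_succ]
      group
    rw [h1]
    exact hpowK' m _ (K'.mul_mem (K'.mul_mem (K'.inv_mem hh) hx) hh)
  have hinvpow : ∀ (i : ℕ), ∀ x ∈ K', (h ^ i)⁻¹ * x * h ^ i ∈ K' := by
    intro i
    induction i with
    | zero => intro x hx; simpa using hx
    | succ i ih =>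
      intro x hx
      have h1 : (h ^ (i + 1))⁻¹ * x * h ^ (i + 1) = h⁻¹ * ((h ^ i)⁻¹ * x * h ^ i) * h := by
        rw [pow_succ]
        group
      rw [h1]
      exact hinv _ (ih x hx)
  -- stable under `K`
  obtain ⟨W₁, hW1W, hW1o, hW10, hg1, hst1⟩ := exists_core hI L.nK hfin hWK hWo hW0 hg
  have hW1K : W₁ ≤ K' := hW1W.trans hWK
  -- stable under `h` as well
  let f : Fin ℓ → (𝔾 →* 𝔾) := fun i => (MulAut.conj (h ^ (i : ℕ))).toMonoidHom
  have hf : ∀ i x, f i x = h ^ (i : ℕ) * x * (h ^ (i : ℕ))⁻¹ := fun i x => rfl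
  let W₂ : Subgroup 𝔾 := ⨅ i, W₁.comap (f i)
  have hmem : ∀ x, x ∈ W₂ ↔ ∀ i : Fin ℓ, h ^ (i : ℕ) * x * (h ^ (i : ℕ))⁻¹ ∈ W₁ := by
    intro x
    show x ∈ (⨅ i, W₁.comap (f i)) ↔ _
    rw [mem_iInf]
    rfl
  have hW2W1 : W₂ ≤ W₁ := by
    intro x hx
    have h1 := (hmem x).1 hx ⟨0, hℓ.pos⟩
    simpa using h1
  have hW2o : IsOpen (W₂ : Set 𝔾) := by
    have h1 : (W₂ : Set 𝔾) = ⋂ i : Fin ℓ, {x | h ^ (i : ℕ) * x * (h ^ (i : ℕ))⁻¹ ∈ W₁} := by
      ext x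
      rw [SetLike.mem_coe, hmem, Set.mem_iInter]
      rfl
    rw [h1]
    refine isOpen_iInter_of_finite fun i => ?_
    exact hW1o.preimage ((continuous_const.mul continuous_id).mul continuous_const)
  have hW20 : W₂.relIndex K' ≠ 0 := by
    refine relIndex_iInf_ne_zero fun i => ?_
    rw [relIndex_comap]
    have h1 : K'.map (f i) = K' := by
      apply le_antisymm
      · rintro _ ⟨x, hx, rfl⟩
        exact hpowK' i x hx
      · intro x hx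
        refine ⟨(h ^ (i : ℕ))⁻¹ * x * h ^ (i : ℕ), hinvpow i x hx, ?_⟩
        rw [hf]
        group
    rw [h1]
    exact hW10
  have hg2 : gens p I K' ⊆ W₂ := by
    intro y hy
    rw [SetLike.mem_coe, hmem]
    intro i
    exact hg1 (gens_conj hI (hpowK' i) hy)
  have hst2 : ∀ g ∈ K, ∀ x ∈ W₂, g * x * g⁻¹ ∈ W₂ := by
    intro g hgK x hx
    rw [hmem] at hx ⊢
    intro i
    have h1 : h ^ (i : ℕ) * (g * x * g⁻¹) * (h ^ (i : ℕ))⁻¹ =
        (h ^ (i : ℕ) * g * (h ^ (i : ℕ))⁻¹) * (h ^ (i : ℕ) * x * (h ^ (i : ℕ))⁻¹) *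
          (h ^ (i : ℕ) * g * (h ^ (i : ℕ))⁻¹)⁻¹ := by group
    rw [h1]
    exact hst1 _ (hpowK i g hgK) _ (hx i)
  have hsth2 : ∀ x ∈ W₂, h * x * h⁻¹ ∈ W₂ := by
    intro x hx
    have hxW1 := hW2W1 hx
    rw [hmem] at hx ⊢
    intro i
    have h1 : h ^ (i : ℕ) * (h * x * h⁻¹) * (h ^ (i : ℕ))⁻¹ =
        h ^ ((i : ℕ) + 1) * x * (h ^ ((i : ℕ) + 1))⁻¹ := by
      rw [pow_succ]
      group
    rw [h1]
    by_cases hi : (i : ℕ) + 1 < ℓ
    · exact hx ⟨(i : ℕ) + 1, hi⟩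
    · have h2 : (i : ℕ) + 1 = ℓ := by
        have := i.2
        omega
      rw [h2]
      exact hst1 _ (hK'K hh) _ hxW1
  have hW2K : W₂ ≤ K' := hW2W1.trans hW1K
  have hconj : ∀ {a b : 𝔾}, a ∈ K' → b ∈ W₂ → a * b * a⁻¹ ∈ W₂ := fun ha hb =>
    conj_mem_of_gens hW2K hg2 ha hb
  -- `h` commutes with `K` modulo `K'`
  have hcomm : ∀ g ∈ K, ∃ u ∈ K', h * g * h⁻¹ = u * g := by
    have hpow : ∀ i : ℕ, ∃ u ∈ K', h * γ ^ i * h⁻¹ = u * γ ^ i := by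
      intro i
      induction i with
      | zero => exact ⟨1, K'.one_mem, by simp⟩
      | succ i ih =>
        obtain ⟨u, hu, hu'⟩ := ih
        refine ⟨u * (γ ^ i * ⁅h, γ⁆ * (γ ^ i)⁻¹),
          K'.mul_mem hu (L.nK _ (K.pow_mem L.memγ i) _ L.comm), ?_⟩
        have h1 : h * γ ^ (i + 1) * h⁻¹ = (h * γ ^ i * h⁻¹) * (h * γ * h⁻¹) := by
          rw [pow_succ]
          group
        rw [h1, hu', commutatorElement_def, pow_succ]
        group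
    intro g hgK
    obtain ⟨i, κ, hκ, rfl⟩ := L.gen g hgK
    obtain ⟨u, hu, hu'⟩ := hpow i
    have hgi : γ ^ i ∈ K := K.pow_mem L.memγ i
    refine ⟨u * (γ ^ i * (h * κ * h⁻¹) * κ⁻¹ * (γ ^ i)⁻¹), K'.mul_mem hu ?_, ?_⟩
    · have h1 : γ ^ i * (h * κ * h⁻¹) * κ⁻¹ * (γ ^ i)⁻¹ =
          γ ^ i * ((h * κ * h⁻¹) * κ⁻¹) * (γ ^ i)⁻¹ := by group
      rw [h1]
      exact L.nK _ hgi _ (K'.mul_mem (L.hK' _ hκ) (K'.inv_mem hκ))
    · have h1 : h * (γ ^ i * κ) * h⁻¹ = (h * γ ^ i * h⁻¹) * (h * κ * h⁻¹) := by group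
      rw [h1, hu']
      group
  -- the fixed points
  let W₃ : Subgroup 𝔾 :=
    { carrier := {x | x ∈ K' ∧ ⁅h, x⁆ ∈ W₂}
      one_mem' := ⟨K'.one_mem, by rw [commutatorElement_one_right]; exact W₂.one_mem⟩
      mul_mem' := by
        rintro a b ⟨ha, ha'⟩ ⟨hb, hb'⟩
        refine ⟨K'.mul_mem ha hb, ?_⟩
        have h1 : ⁅h, a * b⁆ = ⁅h, a⁆ * (a * ⁅h, b⁆ * a⁻¹) := by
          simp only [commutatorElement_def]
          group
        rw [h1]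
        exact W₂.mul_mem ha' (hconj ha hb')
      inv_mem' := by
        rintro a ⟨ha, ha'⟩
        refine ⟨K'.inv_mem ha, ?_⟩
        have h1 : ⁅h, a⁻¹⁆ = a⁻¹ * ⁅h, a⁆⁻¹ * (a⁻¹)⁻¹ := by
          simp only [commutatorElement_def]
          group
        rw [h1]
        exact hconj (K'.inv_mem ha) (W₂.inv_mem ha') }
  have hmem3 : ∀ x, x ∈ W₃ ↔ x ∈ K' ∧ ⁅h, x⁆ ∈ W₂ := fun x => Iff.rfl
  have hW23 : W₂ ≤ W₃ := by
    intro x hx
    refine ⟨hW2K hx, ?_⟩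
    rw [commutatorElement_def]
    exact W₂.mul_mem (hsth2 x hx) (W₂.inv_mem hx)
  refine ⟨W₃, ?_, Subgroup.isOpen_mono hW23 hW2o, ?_, fun x hx => hW23 (hg2 hx), ?_, ?_, ?_⟩
  · intro x hx
    exact hfix x hx.1 (hW1W (hW2W1 hx.2))
  · intro h0
    apply hW20
    have h3 : (W₃.subgroupOf K').index ∣ (W₂.subgroupOf K').index := by
      refine index_dvd_of_le ?_
      intro x hx
      rw [mem_subgroupOf] at hx ⊢
      exact hW23 hx
    have h5 : (W₃.subgroupOf K').index = 0 := h0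
    rw [h5, zero_dvd_iff] at h3
    exact h3
  · intro x hx
    refine ⟨L.hK' x hx.1, ?_⟩
    have h1 : ⁅h, h * x * h⁻¹⁆ = h * ⁅h, x⁆ * h⁻¹ := by
      simp only [commutatorElement_def]
      group
    rw [h1]
    exact hsth2 _ hx.2
  · intro g hgK x hx
    obtain ⟨u, hu, hu'⟩ := hcomm g hgK
    refine ⟨L.nK g hgK x hx.1, ?_⟩
    have h1 : ⁅h, g * x * g⁻¹⁆ = (u * (g * ⁅h, x⁆ * g⁻¹) * u⁻¹) * ⁅u, g * x * g⁻¹⁆ := by
      have h2 : h * (g * x * g⁻¹) * h⁻¹ = (h * g * h⁻¹) * (h * x * h⁻¹) * (h * g * h⁻¹)⁻¹ := by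
        group
      rw [commutatorElement_def h (g * x * g⁻¹), h2, hu']
      simp only [commutatorElement_def]
      group
    rw [h1]
    exact W₂.mul_mem (hconj hu (hst2 g hgK _ hx.2))
      (comm_mem_of_gens hg2 hu (L.nK g hgK x hx.1))
  · intro x hx hx2
    refine ⟨hx, ?_⟩
    have hpl : ¬ p ∣ ℓ := by
      intro h1
      rcases (Nat.dvd_prime hℓ).1 h1 with h2 | h2
      · exact hp.out.ne_one h2
      · exact hℓp h2.symm
    exact nofix hp.out hW2K hW20 hg2 h ℓ hℓ.pos hpl L.hK' hsth2 hh x hx hx2.2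

theorem t_Q3 (q1 : S_nil) (q2 : S_unit) : S_layer := by
  intro 𝔾 _ _ _ p hp Ω _ I K KR K' γ h ℓ f q₀ q C hI L hℓ hℓp hh hord hC hR W hWK hWo hW0 hg hWh hfix
  have hK'K : K' ≤ K := L.le1.trans L.le2
  obtain ⟨W₃, h3W, h3o, h30, h3g, h3h, h3K, h3f⟩ :=
    exists_stable hI L hℓ hℓp hh hWK hWo hW0 hg hfix
  have h3K' : W₃ ≤ K' := h3W.trans hWK
  have hpl : ¬ p ∣ ℓ := by
    intro h1
    rcases (Nat.dvd_prime hℓ).1 h1 with h2 | h2
    · exact hp.out.ne_one h2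
    · exact hℓp h2.symm
  -- it is enough to bound the index of `W₃`
  suffices hmain : W₃.relIndex K' ≤ C by
    refine le_trans ?_ hmain
    refine Nat.le_of_dvd (Nat.pos_of_ne_zero h30) ?_
    refine index_dvd_of_le ?_
    intro x hx
    rw [mem_subgroupOf] at hx ⊢
    exact h3W hx
  obtain ⟨We, hWWe, hWeK, hWe, hWeC⟩ := q2 𝔾 p Ω I K KR K' γ h ℓ q₀ q C L hh hpl hR W₃ h3K' h3o h30
    h3g h3h h3K h3f
  -- the quotient
  obtain ⟨V, _, _, mk, hs, hk, hexp⟩ := exists_quo h3K' h30 h3g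
  obtain ⟨φ, hφ, hφn⟩ := exists_aut mk hs hk h L.hK' h3h ℓ hℓ.pos hh
  obtain ⟨s, hs'⟩ := L.powK
  have hps : 0 < p ^ s := Nat.pos_of_ne_zero (pow_ne_zero _ hp.out.ne_zero)
  have hγK' : ∀ x ∈ K', γ * x * γ⁻¹ ∈ K' := L.nK γ L.memγ
  obtain ⟨g, hgg, hgn⟩ := exists_aut mk hs hk γ hγK' (h3K γ L.memγ) (p ^ s) hps hs'
  have hcK : ∀ c : 𝔾, (∀ x ∈ K', c * x * c⁻¹ ∈ K') → ∀ x ∈ K', ⁅c, x⁆ ∈ K' := by
    intro c hc x hx
    rw [commutatorElement_def]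
    exact K'.mul_mem (hc x hx) (K'.inv_mem hx)
  -- fixed points
  have hfixV : ∀ v, φ v = v → v = 1 := by
    intro v hv
    obtain ⟨x, rfl⟩ := hs v
    rw [hφ, ← mul_inv_eq_one, ← map_inv, ← map_mul, hk] at hv
    rw [hk]
    refine h3f x x.2 ?_
    rw [commutatorElement_def]
    exact hv
  -- commuting
  have hcommV : φ * g = g * φ := by
    ext v
    obtain ⟨x, rfl⟩ := hs v
    rw [MulAut.mul_apply, MulAut.mul_apply, hgg, hφ, hφ, hgg, ← mul_inv_eq_one, ← map_inv,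
      ← map_mul, hk]
    have h1 : ((⟨h * (γ * x * γ⁻¹) * h⁻¹, L.hK' _ (hγK' _ x.2)⟩ *
        (⟨γ * (h * x * h⁻¹) * γ⁻¹, hγK' _ (L.hK' _ x.2)⟩ : K')⁻¹ : K') : 𝔾) =
        ⁅⁅h, γ⁆, γ * (h * x * h⁻¹) * γ⁻¹⁆ := by
      push_cast
      simp only [commutatorElement_def]
      group
    show ((⟨h * (γ * x * γ⁻¹) * h⁻¹, L.hK' _ (hγK' _ x.2)⟩ *
        (⟨γ * (h * x * h⁻¹) * γ⁻¹, hγK' _ (L.hK' _ x.2)⟩ : K')⁻¹ : K') : 𝔾) ∈ W₃
    rw [h1]
    exact comm_mem_of_gens h3g L.comm (hγK' _ (L.hK' _ x.2))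
  -- iterated commutators
  set e := q - q₀ with he
  have hitK : ∀ (j : ℕ) (y : 𝔾), y ∈ K' → (fun z => ⁅γ, z⁆)^[j] y ∈ K' := by
    intro j
    induction j with
    | zero => intro y hy; exact hy
    | succ j ih =>
      intro y hy
      rw [Function.iterate_succ_apply']
      exact hcK γ hγK' _ (ih y hy)
  have hTit : ∀ (j : ℕ) (y : 𝔾) (hy : y ∈ K'),
      (Tm g ^ j : Monoid.End V) (mk ⟨y, hy⟩) = mk ⟨(fun z => ⁅γ, z⁆)^[j] y, hitK j y hy⟩ := by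
    intro j
    induction j with
    | zero => intro y hy; rfl
    | succ j ih =>
      intro y hy
      rw [pow_succ']
      show Tm g ((Tm g ^ j : Monoid.End V) (mk ⟨y, hy⟩)) = _
      rw [ih]
      show g (mk _) / mk _ = _
      rw [hgg, div_eq_mul_inv, ← map_inv, ← map_mul]
      congr 1
      apply Subtype.ext
      show γ * (fun z => ⁅γ, z⁆)^[j] y * γ⁻¹ * ((fun z => ⁅γ, z⁆)^[j] y)⁻¹ =
        (fun z => ⁅γ, z⁆)^[j + 1] y
      rw [Function.iterate_succ_apply', commutatorElement_def]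
  -- the range
  have hrange : ∀ x : K', mk x ∈ ((Tm g ^ e : Monoid.End V) : V →* V).range ↔ (x : 𝔾) ∈ We := by
    intro x
    rw [hWe]
    constructor
    · rintro ⟨v, hv⟩
      obtain ⟨⟨y, hy⟩, rfl⟩ := hs v
      refine ⟨x.2, y, hy, ?_⟩
      have h1 : (Tm g ^ e : Monoid.End V) (mk ⟨y, hy⟩) = mk x := hv
      rw [hTit, eq_comm, ← inv_mul_eq_one, eq_comm] at h1
      have h2 : mk ((⟨(fun z => ⁅γ, z⁆)^[e] y, hitK e y hy⟩ : K')⁻¹ * x) = 1 := by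
        rw [map_mul, map_inv]
        have h3 := congrArg (fun t => t⁻¹) h1
        simp only [inv_one, mul_inv_rev, inv_inv] at h3
        exact h3.symm
      rw [hk] at h2
      exact h2
    · rintro ⟨-, y, hy, hyx⟩
      refine ⟨mk ⟨y, hy⟩, ?_⟩
      show (Tm g ^ e : Monoid.End V) (mk ⟨y, hy⟩) = mk x
      rw [hTit]
      have h2 : mk ((⟨(fun z => ⁅γ, z⁆)^[e] y, hitK e y hy⟩ : K')⁻¹ * x) = 1 := by
        rw [hk]
        exact hyx
      rw [map_mul, map_inv, inv_mul_eq_one] at h2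
      exact h2
  have hidx : ((Tm g ^ e : Monoid.End V) : V →* V).range.index = We.relIndex K' := by
    have h1 : (((Tm g ^ e : Monoid.End V) : V →* V).range.comap mk) = We.subgroupOf K' := by
      ext x
      rw [mem_comap, mem_subgroupOf]
      exact hrange x
    rw [← Subgroup.index_comap_of_surjective _ hs, h1]
    rfl
  have hbot := q1 p ℓ f e hℓ hℓp hord V hexp φ g hφn hfixV hcommV ⟨s, hgn⟩ (by
    rw [hidx]
    exact lt_of_le_of_lt hWeC hC)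
  -- conclusion
  have hWeW : We ≤ W₃ := by
    intro x hx
    have h1 := (hrange ⟨x, hWeK hx⟩).2 hx
    rw [hbot, mem_bot, hk] at h1
    exact h1
  have heq : We = W₃ := le_antisymm hWeW hWWe
  rw [← heq]
  exact hWeC

end Pool.Agent.Run7.h321.UM
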